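import Pool.Agent.L0h98.RF.Def

/-!
# Project RF (helper98), part BGN, by helper55: the numerical estimate
-/

set_option autoImplicit false
set_option linter.all false

namespace Pool.Agent.L0h55.RF

open Pool.Agent.L0h98.RF (bd S_BGN)

/-- binomial coefficients with a small lower index -/
lemma choose_small (s c : ℕ) (h : 256 * c ≤ s) :
    (s.choose c : ℝ) ≤ Real.exp (3 / 100 * (s : ℝ)) := by
  have hc : (256 : ℝ) * c ≤ s := by exact_mod_cast h
  have hcs : c ≤ s := by omega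
  have h1 : (s.choose c : ℝ) * (1 / 100) ^ c ≤ (1 / 100 + 1) ^ s := by
    rw [add_pow]
    have h3 := Finset.single_le_sum
      (f := fun j => (1 / 100 : ℝ) ^ j * 1 ^ (s - j) * (s.choose j : ℝ))
      (fun j _ => by positivity) (Finset.mem_range.2 (by omega : c < s + 1))
    refine le_trans (le_of_eq ?_) h3
    simp only [one_pow, mul_one]
    ring
  have h2 : (1 / 100 + 1 : ℝ) ^ s ≤ Real.exp ((s : ℝ) / 100) := by
    have h3 := Real.add_one_le_exp (1 / 100 : ℝ)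
    calc (1 / 100 + 1 : ℝ) ^ s ≤ (Real.exp (1 / 100)) ^ s := by gcongr
      _ = Real.exp ((s : ℝ) / 100) := by
          rw [← Real.exp_nat_mul]
          congr 1
          ring
  have h100 : (100 : ℝ) ≤ Real.exp 5 := by
    have h3 := Real.exp_one_gt_d9
    have h4 : Real.exp 5 = (Real.exp 1) ^ 5 := by
      rw [← Real.exp_nat_mul]
      norm_num
    rw [h4]
    calc (100 : ℝ) ≤ 2.7 ^ 5 := by norm_num
      _ ≤ (Real.exp 1) ^ 5 := by
          gcongr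
          linarith
  have h5 : (100 : ℝ) ^ c ≤ Real.exp (5 * (c : ℝ)) := by
    calc (100 : ℝ) ^ c ≤ (Real.exp 5) ^ c := by gcongr
      _ = Real.exp (5 * (c : ℝ)) := by
          rw [← Real.exp_nat_mul]
          congr 1
          ring
  have h6 : (s.choose c : ℝ) = (s.choose c : ℝ) * (1 / 100) ^ c * 100 ^ c := by
    rw [mul_assoc, ← mul_pow]
    norm_num
  rw [h6]
  calc (s.choose c : ℝ) * (1 / 100) ^ c * 100 ^ c
      ≤ Real.exp ((s : ℝ) / 100) * Real.exp (5 * (c : ℝ)) := by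
        gcongr
        exact h1.trans h2
    _ = Real.exp ((s : ℝ) / 100 + 5 * c) := by rw [Real.exp_add]
    _ ≤ _ := by
        apply Real.exp_le_exp.2
        linarith

theorem t_BGN : S_BGN := by
  refine ⟨256, 200, (25 ^ 11 * Nat.factorial 11) ^ 2 + 16, by norm_num, by norm_num, ?_⟩
  intro m s c e hm hs hsm hq hse
  have hS : (200 : ℝ) ≤ s := by exact_mod_cast hs
  have hSM : (s : ℝ) ≤ m := by exact_mod_cast hsm
  have hC0 : (0 : ℝ) ≤ c := Nat.cast_nonneg _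
  have hC : (256 : ℝ) * c ≤ s := by exact_mod_cast hq
  have hE : (s : ℝ) = 2 * e + c := by exact_mod_cast hse
  have hM16 : (16 : ℝ) ≤ m := by
    have : 16 ≤ m := by omega
    exact_mod_cast this
  have hM0 : (0 : ℝ) < m := by linarith
  have hS0 : (0 : ℝ) < s := by linarith
  have hE0 : (0 : ℝ) < e := by linarith
  have hME : (0 : ℝ) < (m : ℝ) - e := by linarith
  set y : ℝ := (e : ℝ) / ((m : ℝ) - e) with hy
  have hy0 : 0 < y := div_pos hE0 hME
  have hy1 : y ≤ (s : ℝ) / m := by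
    rw [hy, div_le_div_iff₀ hME hM0]
    nlinarith [mul_nonneg hC0 hS0.le, mul_le_mul_of_nonneg_left hSM (by linarith : (0 : ℝ) ≤ (e : ℝ) + c)]
  have hsm1 : (s : ℝ) / m ≤ 1 := (div_le_one hM0).2 hSM
  have hsm0 : 0 < (s : ℝ) / m := div_pos hS0 hM0
  -- the first power
  have A1 : y ^ ((e : ℝ) - s / 3) ≤ ((s : ℝ) / m) ^ ((s : ℝ) / 8) := by
    have h1 : (s : ℝ) / 8 ≤ (e : ℝ) - s / 3 := by linarith
    calc y ^ ((e : ℝ) - s / 3) ≤ ((s : ℝ) / m) ^ ((e : ℝ) - s / 3) :=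
          Real.rpow_le_rpow hy0.le hy1 (by linarith)
      _ ≤ _ := Real.rpow_le_rpow_of_exponent_ge hsm0 hsm1 h1
  -- the second power
  have A2 : (1 + y) ^ (-(m : ℝ) / 3) ≤ Real.exp (-(s : ℝ) / 7) := by
    rw [Real.rpow_def_of_pos (by linarith)]
    apply Real.exp_le_exp.2
    have h1 := Real.one_sub_inv_le_log_of_pos (by linarith : 0 < 1 + y)
    have h2 : 1 - (1 + y)⁻¹ = (e : ℝ) / m := by
      have h3 : 1 + y = (m : ℝ) / ((m : ℝ) - e) := by
        rw [hy]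
        field_simp
        ring
      rw [h3, inv_div]
      field_simp
      ring
    rw [h2] at h1
    have h4 : (e : ℝ) ≤ Real.log (1 + y) * m := by
      rwa [div_le_iff₀ hM0] at h1
    have h5 : Real.log (1 + y) * (-(m : ℝ) / 3) = -(Real.log (1 + y) * m) / 3 := by ring
    rw [h5]
    linarith
  have A3 := choose_small s c hq
  -- the product
  have hpoly : (m : ℝ) * (m + 1) ^ 2 * (m + 1) ≤ (m : ℝ) ^ 5 := by
    have h1 : (m : ℝ) * (m + 1) ^ 2 * (m + 1) ≤ m * (2 * m) ^ 2 * (2 * m) := by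
      gcongr <;> linarith
    have h2 : (m : ℝ) * (2 * m) ^ 2 * (2 * m) = 8 * (m : ℝ) ^ 4 := by ring
    rw [h2] at h1
    have h3 : (0 : ℝ) ≤ (m : ℝ) ^ 4 := by positivity
    calc _ ≤ 8 * (m : ℝ) ^ 4 := h1
      _ ≤ m * (m : ℝ) ^ 4 := by nlinarith
      _ = _ := by ring
  have hmain : (m : ℝ) * (m + 1) ^ 2 * bd m s c e ≤
      (m : ℝ) ^ 5 * (((s : ℝ) / m) ^ ((s : ℝ) / 8) * Real.exp (-(s : ℝ) / 25)) := by
    have h1 : bd m s c e ≤ Real.exp (3 / 100 * (s : ℝ)) * (m + 1) *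
        ((s : ℝ) / m) ^ ((s : ℝ) / 8) * Real.exp (-(s : ℝ) / 7) := by
      unfold bd
      rw [← hy]
      have e1 : 0 ≤ y ^ ((e : ℝ) - s / 3) := Real.rpow_nonneg hy0.le _
      have e2 : 0 ≤ (1 + y) ^ (-(m : ℝ) / 3) := Real.rpow_nonneg (by linarith) _
      gcongr
    have h2 : Real.exp (3 / 100 * (s : ℝ)) * Real.exp (-(s : ℝ) / 7) ≤ Real.exp (-(s : ℝ) / 25) := by
      rw [← Real.exp_add]
      apply Real.exp_le_exp.2
      linarith
    have h3 : (0 : ℝ) ≤ ((s : ℝ) / m) ^ ((s : ℝ) / 8) := Real.rpow_nonneg hsm0.le _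
    calc (m : ℝ) * (m + 1) ^ 2 * bd m s c e ≤ (m : ℝ) * (m + 1) ^ 2 *
          (Real.exp (3 / 100 * (s : ℝ)) * (m + 1) *
            ((s : ℝ) / m) ^ ((s : ℝ) / 8) * Real.exp (-(s : ℝ) / 7)) := by gcongr
      _ = ((m : ℝ) * (m + 1) ^ 2 * (m + 1)) * (((s : ℝ) / m) ^ ((s : ℝ) / 8) *
          (Real.exp (3 / 100 * (s : ℝ)) * Real.exp (-(s : ℝ) / 7))) := by ring
      _ ≤ _ := by gcongr
  refine hmain.trans ?_
  by_cases hcase : s ^ 2 ≤ m
  · have hcase' : (s : ℝ) ^ 2 ≤ m := by exact_mod_cast hcase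
    have h1 : (s : ℝ) / m ≤ (m : ℝ) ^ (-(1 / 2) : ℝ) := by
      rw [Real.rpow_neg hM0.le, ← Real.sqrt_eq_rpow, div_le_iff₀ hM0]
      have h2 : (s : ℝ) ≤ Real.sqrt m := Real.le_sqrt_of_sq_le hcase'
      have h3 : (Real.sqrt m)⁻¹ * m = Real.sqrt m := by
        have h4 : 0 < Real.sqrt m := Real.sqrt_pos.2 hM0
        nth_rewrite 2 [← Real.mul_self_sqrt hM0.le]
        field_simp
      rw [h3]
      exact h2
    have h2 : ((s : ℝ) / m) ^ ((s : ℝ) / 8) ≤ (m : ℝ) ^ (-5 : ℝ) := by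
      calc ((s : ℝ) / m) ^ ((s : ℝ) / 8) ≤ ((m : ℝ) ^ (-(1 / 2) : ℝ)) ^ ((s : ℝ) / 8) :=
            Real.rpow_le_rpow hsm0.le h1 (by linarith)
        _ = (m : ℝ) ^ (-(1 / 2) * ((s : ℝ) / 8)) := by rw [← Real.rpow_mul hM0.le]
        _ ≤ _ := Real.rpow_le_rpow_of_exponent_le (by linarith) (by linarith)
    have h3 : Real.exp (-(s : ℝ) / 25) ≤ 1 := by
      rw [Real.exp_le_one_iff]
      linarith
    have h4 : (m : ℝ) ^ 5 * (m : ℝ) ^ (-5 : ℝ) = 1 := by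
      rw [Real.rpow_neg hM0.le]
      have : (m : ℝ) ^ (5 : ℝ) = (m : ℝ) ^ 5 := by exact_mod_cast Real.rpow_natCast (m : ℝ) 5
      rw [this]
      field_simp
    calc (m : ℝ) ^ 5 * (((s : ℝ) / m) ^ ((s : ℝ) / 8) * Real.exp (-(s : ℝ) / 25))
        ≤ (m : ℝ) ^ 5 * ((m : ℝ) ^ (-5 : ℝ) * 1) := by
          have := Real.exp_pos (-(s : ℝ) / 25)
          gcongr
      _ = 1 := by rw [mul_one, h4]
  · push Not at hcase
    have hT : 25 ^ 11 * Nat.factorial 11 < s := by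
      have h1 : (25 ^ 11 * Nat.factorial 11) ^ 2 < s ^ 2 := by omega
      exact lt_of_pow_lt_pow_left₀ 2 (Nat.zero_le _) h1
    have hT' : (25 : ℝ) ^ 11 * (Nat.factorial 11 : ℝ) ≤ s := by exact_mod_cast hT.le
    have h1 : ((s : ℝ) / m) ^ ((s : ℝ) / 8) ≤ 1 :=
      Real.rpow_le_one hsm0.le hsm1 (by linarith)
    have h2 : (m : ℝ) ^ 5 ≤ Real.exp ((s : ℝ) / 25) := by
      have hcase' : (m : ℝ) ≤ (s : ℝ) ^ 2 := by exact_mod_cast hcase.le
      have h3 := Real.pow_div_factorial_le_exp ((s : ℝ) / 25) (by linarith) 11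
      refine le_trans ?_ h3
      calc (m : ℝ) ^ 5 ≤ ((s : ℝ) ^ 2) ^ 5 := by gcongr
        _ = (s : ℝ) ^ 10 := by ring
        _ ≤ _ := by
            rw [div_pow, div_div, le_div_iff₀ (by positivity)]
            calc (s : ℝ) ^ 10 * ((25 : ℝ) ^ 11 * (Nat.factorial 11 : ℝ)) ≤ (s : ℝ) ^ 10 * s := by
                  gcongr
              _ = _ := by ring
    have h3 : Real.exp ((s : ℝ) / 25) * Real.exp (-(s : ℝ) / 25) = 1 := by
      rw [← Real.exp_add]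
      have : (s : ℝ) / 25 + -(s : ℝ) / 25 = 0 := by ring
      rw [this, Real.exp_zero]
    calc (m : ℝ) ^ 5 * (((s : ℝ) / m) ^ ((s : ℝ) / 8) * Real.exp (-(s : ℝ) / 25))
        ≤ Real.exp ((s : ℝ) / 25) * (1 * Real.exp (-(s : ℝ) / 25)) := by gcongr
      _ = 1 := by rw [one_mul, h3]

end Pool.Agent.L0h55.RF
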